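import Pool.Agent.Lib.MP_6ff8d9_an_h20.Alg
import Pool.Agent.Lib.MP_6ff8d9_an_h42.M2

/-!
# On the sphere, `dual0 f` is of order `√(1 - |f|²)`
-/

open Metric Filter Topology MvPolynomial
open scoped ComplexConjugate

namespace Pool.Agent.Lib.MP_6ff8d9_an.Hom.H20

open M2

noncomputable section

/-- polynomials are bounded and Lipschitz on bounded sets -/
lemma lipschitz {n : ℕ} (p : MvPolynomial (Fin n) ℂ) (R : ℝ) (hR : 0 ≤ R) :
    ∃ C : ℝ, 0 ≤ C ∧ ∀ u v : Fin n → ℂ, (∀ i, ‖u i‖ ≤ R) → (∀ i, ‖v i‖ ≤ R) →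
      ∀ δ : ℝ, (∀ i, ‖u i - v i‖ ≤ δ) → 0 ≤ δ →
        ‖eval u p‖ ≤ C ∧ ‖eval v p‖ ≤ C ∧ ‖eval u p - eval v p‖ ≤ C * δ := by
  induction p using MvPolynomial.induction_on with
  | C a =>
    refine ⟨‖a‖, norm_nonneg _, fun u v _ _ δ _ hδ => ⟨by simp, by simp, ?_⟩⟩
    simp only [eval_C, sub_self, norm_zero]
    positivity
  | add p q hp hq =>
    obtain ⟨C₁, h1, hC₁⟩ := hp
    obtain ⟨C₂, h2, hC₂⟩ := hq
    refine ⟨C₁ + C₂, by positivity, fun u v hu hv δ hd hδ => ?_⟩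
    obtain ⟨a1, b1, c1⟩ := hC₁ u v hu hv δ hd hδ
    obtain ⟨a2, b2, c2⟩ := hC₂ u v hu hv δ hd hδ
    rw [map_add, map_add]
    refine ⟨(norm_add_le _ _).trans (add_le_add a1 a2), (norm_add_le _ _).trans (add_le_add b1 b2),
      ?_⟩
    have : eval u p + eval u q - (eval v p + eval v q) =
      (eval u p - eval v p) + (eval u q - eval v q) := by ring
    rw [this, add_mul]
    exact (norm_add_le _ _).trans (add_le_add c1 c2)
  | mul_X p k hp =>
    obtain ⟨K, hK0, hK⟩ := hp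
    refine ⟨K * (R + 1), by positivity, fun u v hu hv δ hd hδ => ?_⟩
    obtain ⟨a1, b1, c1⟩ := hK u v hu hv δ hd hδ
    rw [map_mul, map_mul, eval_X, eval_X, norm_mul, norm_mul]
    have e1 : ‖eval u p‖ * ‖u k‖ ≤ K * R := mul_le_mul a1 (hu k) (norm_nonneg _) hK0
    have e2 : ‖eval v p‖ * ‖v k‖ ≤ K * R := mul_le_mul b1 (hv k) (norm_nonneg _) hK0
    refine ⟨by nlinarith, by nlinarith, ?_⟩
    have : eval u p * u k - eval v p * v k =
      (eval u p - eval v p) * u k + eval v p * (u k - v k) := by ring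
    rw [this]
    refine (norm_add_le _ _).trans ?_
    rw [norm_mul, norm_mul]
    have e3 : ‖eval u p - eval v p‖ * ‖u k‖ ≤ (K * δ) * R :=
      mul_le_mul c1 (hu k) (norm_nonneg _) (by positivity)
    have e4 : ‖eval v p‖ * ‖u k - v k‖ ≤ K * δ := mul_le_mul b1 (hd k) (norm_nonneg _) hK0
    nlinarith

/-- the tangential derivatives are of order `√(1 - |f|²)` -/
theorem tang {n : ℕ} (f : MvPolynomial (Fin n) ℂ)
    (hf : ∀ z : Fin n → ℂ, ∑ i, ‖z i‖ ^ 2 ≤ 1 → ‖eval z f‖ ≤ 1) :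
    ∃ K : ℝ, 0 ≤ K ∧ ∀ ζ ∈ Sph n, ∀ i, ‖Dd ζ i f‖ ≤ K * √(1 - ‖eval ζ f‖ ^ 2) := by
  obtain ⟨C, hC0, hC⟩ := expansion f
  refine ⟨1 + C, by positivity, fun ζ hζ i => ?_⟩
  have hh1 : ‖eval ζ f‖ ≤ 1 := hf ζ (le_of_eq hζ)
  have key : ∀ ρ : ℝ, 0 < ρ → ρ ≤ 1 → 1 - ‖eval ζ f‖ ^ 2 ≤ ρ ^ 2 →
      ‖Dd ζ i f‖ ≤ (1 + C) * ρ := by
    intro ρ hρ hρ1 hA
    obtain ⟨c, hc, hcD⟩ := exists_phase (eval ζ f) (Dd ζ i f) hρ.le
    have h1 := (hC ζ hζ i).2.2 c (by rw [hc]; exact hρ1)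
    have h2 := hf _ (zl_mem hζ i (c := c) (by rw [hc]; exact hρ1))
    have h3 : ‖eval ζ f + c * Dd ζ i f‖ ≤ 1 + C * ρ ^ 2 := by
      have h4 : eval ζ f + c * Dd ζ i f = eval (zl ζ i c) f -
        (eval (zl ζ i c) f - eval ζ f - c * Dd ζ i f) := by ring
      rw [h4]
      refine (norm_sub_le _ _).trans ?_
      rw [hc] at h1
      linarith
    rw [hcD] at h3
    have h4 : 1 - ‖eval ζ f‖ ≤ 1 - ‖eval ζ f‖ ^ 2 := by nlinarith [norm_nonneg (eval ζ f)]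
    have h5 : ρ * ‖Dd ζ i f‖ ≤ ρ * ((1 + C) * ρ) := by nlinarith
    exact le_of_mul_le_mul_left h5 hρ
  have hA0 : 0 ≤ 1 - ‖eval ζ f‖ ^ 2 := by nlinarith [norm_nonneg (eval ζ f)]
  rcases hA0.eq_or_lt with h | h
  · rw [← h, Real.sqrt_zero, mul_zero]
    by_contra hcon
    push Not at hcon
    set x := ‖Dd ζ i f‖ with hx
    have hC1 : 0 < 1 + C := by linarith
    have h1 := key (min 1 (x / (2 * (1 + C)))) (by positivity) (min_le_left _ _)
      (by rw [← h]; positivity)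
    have h2 : (1 + C) * min 1 (x / (2 * (1 + C))) ≤ (1 + C) * (x / (2 * (1 + C))) :=
      mul_le_mul_of_nonneg_left (min_le_right _ _) hC1.le
    have h3 : (1 + C) * (x / (2 * (1 + C))) = x / 2 := by field_simp
    linarith
  · refine key _ (Real.sqrt_pos.2 h) ?_ (by rw [Real.sq_sqrt hA0])
    rw [Real.sqrt_le_iff]
    exact ⟨zero_le_one, by nlinarith [norm_nonneg (eval ζ f)]⟩

lemma eval_Rd {n : ℕ} (ζ : Fin n → ℂ) (f : MvPolynomial (Fin n) ℂ) :
    eval ζ (Rd f) = ∑ l, ζ l * eval ζ (pderiv l f) := by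
  simp [Rd, map_sum, map_mul]

/-- a polynomial in the gradient may be evaluated at `(Rf) conj ζ` -/
theorem comp_est {n : ℕ} (f Q : MvPolynomial (Fin n) ℂ)
    (hf : ∀ z : Fin n → ℂ, ∑ i, ‖z i‖ ^ 2 ≤ 1 → ‖eval z f‖ ≤ 1) :
    ∃ C : ℝ, 0 ≤ C ∧ ∀ ζ ∈ Sph n, ‖eval ζ (gsub f Q) -
      eval (fun j => eval ζ (Rd f) * conj (ζ j)) Q‖ ≤ C * √(1 - ‖eval ζ f‖ ^ 2) := by
  obtain ⟨K, hK0, hK⟩ := tang f hf
  obtain ⟨B, hB0, hB⟩ := bound_pderiv f
  obtain ⟨E, hE0, hE⟩ := expansion (Rd f)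
  obtain ⟨C, hC0, hC⟩ := lipschitz Q (B + E) (by positivity)
  refine ⟨C * K, by positivity, fun ζ hζ => ?_⟩
  rw [eval_gsub]
  by_cases hn : n = 0
  · subst hn
    have : (fun j => eval ζ (pderiv j f)) = fun j => eval ζ (Rd f) * conj (ζ j) := by
      funext j
      exact j.elim0
    rw [this, sub_self, norm_zero]
    positivity
  have i₀ : Fin n := ⟨0, Nat.pos_of_ne_zero hn⟩
  have h1 := (hC (fun j => eval ζ (pderiv j f)) (fun j => eval ζ (Rd f) * conj (ζ j)) ?_ ?_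
    (K * √(1 - ‖eval ζ f‖ ^ 2)) ?_ (by positivity)).2.2
  · rw [mul_assoc]
    exact h1
  · intro j
    exact (hB ζ hζ j).trans (by linarith)
  · intro j
    rw [norm_mul, RCLike.norm_conj]
    have h2 := (hE ζ hζ i₀).1
    have h3 := sph_le hζ j
    calc ‖eval ζ (Rd f)‖ * ‖ζ j‖ ≤ E * 1 := mul_le_mul h2 h3 (norm_nonneg _) hE0
      _ ≤ B + E := by linarith
  · intro j
    have h2 := hK ζ hζ j
    rw [Dd_eq, ← eval_Rd] at h2
    rwa [mul_comm (eval ζ (Rd f))]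

lemma eval_smul_homog {n : ℕ} {Q : MvPolynomial (Fin n) ℂ} {k : ℕ} (hQ : Q.IsHomogeneous k)
    (r : ℂ) (z : Fin n → ℂ) : eval (fun j => r * z j) Q = r ^ k * eval z Q := by
  have h := M5.eval_scale (fun _ => 1) (H := Q) (d := k) hQ r z
  simpa using h

/-- `dual0 f = O(√(1 - |f|²))` on the sphere -/
theorem dual0_est {n : ℕ} (f : MvPolynomial (Fin n) ℂ)
    (hf : ∀ z : Fin n → ℂ, ∑ i, ‖z i‖ ^ 2 ≤ 1 → ‖eval z f‖ ≤ 1) :
    ∃ C : ℝ, 0 ≤ C ∧ ∀ ζ ∈ Sph n, ‖eval ζ (dual0 f)‖ ≤ C * √(1 - ‖eval ζ f‖ ^ 2) := by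
  obtain ⟨E, hE0, hE⟩ := expansion (Rd f)
  choose C hC0 hC using fun k => comp_est f (homogeneousComponent k (bar f)) hf
  set d := f.totalDegree with hd
  refine ⟨E ^ d + ∑ k ∈ Finset.range (d + 1), C k * E ^ (d - k), by
    have : 0 ≤ ∑ k ∈ Finset.range (d + 1), C k * E ^ (d - k) :=
      Finset.sum_nonneg fun k _ => mul_nonneg (hC0 k) (by positivity)
    positivity, fun ζ hζ => ?_⟩
  by_cases hn : n = 0
  · exfalso
    subst hn
    have : (∑ i : Fin 0, ‖ζ i‖ ^ 2) = 1 := hζ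
    simp at this
  have i₀ : Fin n := ⟨0, Nat.pos_of_ne_zero hn⟩
  have hr := (hE ζ hζ i₀).1
  set r := eval ζ (Rd f) with hrdef
  have hF : ‖eval ζ f‖ ≤ 1 := hf ζ (le_of_eq hζ)
  set A := 1 - ‖eval ζ f‖ ^ 2 with hA
  have hA0 : 0 ≤ A := by rw [hA]; nlinarith [norm_nonneg (eval ζ f)]
  have hA1 : A ≤ √A := by
    have : A ≤ 1 := by rw [hA]; nlinarith [norm_nonneg (eval ζ f)]
    exact Real.le_sqrt_of_sq_le (by nlinarith)
  set x : ℕ → ℂ := fun k => eval ζ (gsub f (homogeneousComponent k (bar f))) with hx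
  set y : ℕ → ℂ := fun k => eval (fun j => conj (ζ j)) (homogeneousComponent k (bar f)) with hy
  have hxy : ∀ k, ‖x k - r ^ k * y k‖ ≤ C k * √A := by
    intro k
    have h1 := hC k ζ hζ
    rw [eval_smul_homog (homogeneousComponent_isHomogeneous k _)] at h1
    exact h1
  have hsum : ∑ k ∈ Finset.range (d + 1), y k = conj (eval ζ f) := by
    have h1 : ∑ k ∈ Finset.range (d + 1), homogeneousComponent k (bar f) = bar f := by
      have h2 : (bar f).totalDegree = d := by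
        unfold bar totalDegree
        rw [support_map_of_injective _ (starRingEnd ℂ).injective]
        rfl
      have h3 := sum_homogeneousComponent (bar f)
      rwa [h2] at h3
    have h2 := congrArg (eval (fun j => conj (ζ j))) h1
    rw [map_sum, eval_bar] at h2
    simp only [Complex.conj_conj] at h2
    exact h2
  have hmain : eval ζ (dual0 f) = r ^ d * (A : ℂ) -
      eval ζ f * ∑ k ∈ Finset.range (d + 1), (x k - r ^ k * y k) * r ^ (d - k) := by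
    have h1 : ∑ k ∈ Finset.range (d + 1), (x k - r ^ k * y k) * r ^ (d - k) =
        ∑ k ∈ Finset.range (d + 1), x k * r ^ (d - k) - r ^ d * conj (eval ζ f) := by
      rw [← hsum, Finset.mul_sum, ← Finset.sum_sub_distrib]
      refine Finset.sum_congr rfl fun k hk => ?_
      have hkd : k ≤ d := Nat.lt_succ_iff.1 (Finset.mem_range.1 hk)
      have : r ^ d = r ^ k * r ^ (d - k) := by rw [← pow_add, Nat.add_sub_cancel' hkd]
      rw [this]
      ring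
    have h2 : (A : ℂ) = 1 - eval ζ f * conj (eval ζ f) := by
      rw [Complex.mul_conj, Complex.normSq_eq_norm_sq, hA]
      push_cast
      ring
    have h3 : eval ζ (dual0 f) = r ^ d - eval ζ f *
        ∑ k ∈ Finset.range (d + 1), x k * r ^ (d - k) := by
      unfold dual0
      rw [map_sub, map_pow, map_mul, map_sum]
      simp only [map_mul, map_pow]
      rfl
    rw [h3, h1, h2]
    ring
  rw [hmain]
  refine (norm_sub_le _ _).trans ?_
  rw [norm_mul, norm_mul, norm_pow, Complex.norm_real, Real.norm_of_nonneg hA0, add_mul]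
  refine add_le_add ?_ ?_
  · exact mul_le_mul (pow_le_pow_left₀ (norm_nonneg _) hr d) hA1 hA0 (by positivity)
  · have h1 : ‖∑ k ∈ Finset.range (d + 1), (x k - r ^ k * y k) * r ^ (d - k)‖ ≤
        (∑ k ∈ Finset.range (d + 1), C k * E ^ (d - k)) * √A := by
      refine (norm_sum_le _ _).trans ?_
      rw [Finset.sum_mul]
      refine Finset.sum_le_sum fun k _ => ?_
      rw [norm_mul, norm_pow]
      calc ‖x k - r ^ k * y k‖ * ‖r‖ ^ (d - k) ≤ (C k * √A) * E ^ (d - k) :=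
            mul_le_mul (hxy k) (pow_le_pow_left₀ (norm_nonneg _) hr _) (by positivity)
              (mul_nonneg (hC0 k) (Real.sqrt_nonneg _))
        _ = C k * E ^ (d - k) * √A := by ring
    calc ‖eval ζ f‖ * ‖∑ k ∈ Finset.range (d + 1), (x k - r ^ k * y k) * r ^ (d - k)‖
        ≤ 1 * ‖∑ k ∈ Finset.range (d + 1), (x k - r ^ k * y k) * r ^ (d - k)‖ :=
          mul_le_mul_of_nonneg_right hF (norm_nonneg _)
      _ ≤ _ := by rw [one_mul]; exact h1

/-- `∂_j f̄(∇f) f - f̄(∇f) z_j` -/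
def dual1 {n : ℕ} (f : MvPolynomial (Fin n) ℂ) (j : Fin n) : MvPolynomial (Fin n) ℂ :=
  gsub f (pderiv j (bar f)) * f - gsub f (bar f) * X j

lemma pderiv_bar {n : ℕ} (f : MvPolynomial (Fin n) ℂ) (j : Fin n) :
    pderiv j (bar f) = bar (pderiv j f) := by
  unfold bar
  exact pderiv_map

lemma bar_homog {n : ℕ} {f : MvPolynomial (Fin n) ℂ} {k : ℕ} (h : f.IsHomogeneous k) :
    (bar f).IsHomogeneous k := h.map _

theorem dual1_est {n : ℕ} (f : MvPolynomial (Fin n) ℂ) {m : ℕ} (hm : 1 ≤ m)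
    (hfm : f.IsHomogeneous m)
    (hf : ∀ z : Fin n → ℂ, ∑ i, ‖z i‖ ^ 2 ≤ 1 → ‖eval z f‖ ≤ 1) (j : Fin n) :
    ∃ C : ℝ, 0 ≤ C ∧ ∀ ζ ∈ Sph n, ‖eval ζ (dual1 f j)‖ ≤ C * √(1 - ‖eval ζ f‖ ^ 2) := by
  obtain ⟨K, hK0, hK⟩ := tang f hf
  obtain ⟨C₁, h1, hC₁⟩ := comp_est f (pderiv j (bar f)) hf
  obtain ⟨C₂, h2, hC₂⟩ := comp_est f (bar f) hf
  obtain ⟨E, hE0, hE⟩ := expansion (Rd f)
  refine ⟨E ^ (m - 1) * K + C₁ + C₂, by positivity, fun ζ hζ => ?_⟩
  have hF : ‖eval ζ f‖ ≤ 1 := hf ζ (le_of_eq hζ)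
  have hζj := sph_le hζ j
  have hr := (hE ζ hζ j).1
  have e1 := hC₁ ζ hζ
  have e2 := hC₂ ζ hζ
  have hhom : (pderiv j f).IsHomogeneous (m - 1) := hfm.pderiv
  rw [pderiv_bar] at e1
  rw [eval_smul_homog (bar_homog hhom), eval_bar] at e1
  rw [eval_smul_homog (bar_homog hfm), eval_bar] at e2
  simp only [Complex.conj_conj] at e1 e2
  have e3 : eval ζ (Rd f) = (m : ℂ) * eval ζ f := by
    have h3 := congrArg (eval ζ) hfm.sum_X_mul_pderiv
    rw [nsmul_eq_mul, map_mul, map_natCast] at h3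
    exact h3
  have hD := hK ζ hζ j
  set r := eval ζ (Rd f) with hrdef
  set F := eval ζ f with hFdef
  set G := eval ζ (pderiv j f) with hG
  have e4 : Dd ζ j f = G - conj (ζ j) * r := by
    rw [Dd_eq, ← eval_Rd]
  have e5 : eval ζ (dual1 f j) = (eval ζ (gsub f (bar (pderiv j f))) - r ^ (m - 1) * conj G) * F -
      (eval ζ (gsub f (bar f)) - r ^ m * conj F) * ζ j + r ^ (m - 1) * F * conj (Dd ζ j f) := by
    have e6 : eval ζ (dual1 f j) = eval ζ (gsub f (bar (pderiv j f))) * F -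
      eval ζ (gsub f (bar f)) * ζ j := by
      unfold dual1
      rw [pderiv_bar, map_sub, map_mul, map_mul, eval_X]
    have e7 : r ^ m = r ^ (m - 1) * r := by
      rw [← pow_succ, Nat.sub_add_cancel hm]
    have e8 : conj (Dd ζ j f) = conj G - ζ j * conj r := by
      rw [e4, map_sub, map_mul, Complex.conj_conj]
    have e9 : r * conj F = F * conj r := by
      rw [e3, map_mul, map_natCast]
      ring
    rw [e6, e8, e7]
    linear_combination (- r ^ (m - 1) * ζ j) * e9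
  rw [e5]
  refine (norm_add_le _ _).trans ?_
  refine (add_le_add (norm_sub_le _ _) le_rfl).trans ?_
  rw [norm_mul, norm_mul, norm_mul, norm_mul, norm_pow, RCLike.norm_conj]
  have hs := Real.sqrt_nonneg (1 - ‖F‖ ^ 2)
  have i1 : ‖eval ζ (gsub f (bar (pderiv j f))) - r ^ (m - 1) * conj G‖ * ‖F‖ ≤
      (C₁ * √(1 - ‖F‖ ^ 2)) * 1 := mul_le_mul e1 hF (norm_nonneg _) (by positivity)
  have i2 : ‖eval ζ (gsub f (bar f)) - r ^ m * conj F‖ * ‖ζ j‖ ≤
      (C₂ * √(1 - ‖F‖ ^ 2)) * 1 := mul_le_mul e2 hζj (norm_nonneg _) (by positivity)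
  have i3 : ‖r‖ ^ (m - 1) * ‖F‖ * ‖Dd ζ j f‖ ≤ (E ^ (m - 1) * 1) * (K * √(1 - ‖F‖ ^ 2)) := by
    refine mul_le_mul ?_ hD (norm_nonneg _) (by positivity)
    exact mul_le_mul (pow_le_pow_left₀ (norm_nonneg _) hr _) hF (norm_nonneg _) (by positivity)
  nlinarith

end

end Pool.Agent.Lib.MP_6ff8d9_an.Hom.H20
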