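import Mathlib

/-!
# Polynomials whose conjugate gradient map inverts the level sets are homogeneous

`Rd p` is the radial derivative, `bar p` has the conjugate coefficients, `dual0 f` is the polynomial
`(Rf)^d (1 - f · f̄(∇f / Rf))`, `d = deg f`.
-/

open MvPolynomial
open scoped ComplexConjugate

namespace Pool.Agent.Lib.MP_6ff8d9_an.Hom.H20

noncomputable section

/-- radial derivative -/
def Rd {n : ℕ} (p : MvPolynomial (Fin n) ℂ) : MvPolynomial (Fin n) ℂ := ∑ l, X l * pderiv l p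

/-- conjugate coefficients -/
def bar {n : ℕ} (p : MvPolynomial (Fin n) ℂ) : MvPolynomial (Fin n) ℂ :=
  MvPolynomial.map (starRingEnd ℂ) p

/-- `Q(∇f)` -/
def gsub {n : ℕ} (f Q : MvPolynomial (Fin n) ℂ) : MvPolynomial (Fin n) ℂ :=
  bind₁ (fun j => pderiv j f) Q

/-- `(Rf)^d (1 - f · f̄(∇f / Rf))` with the denominators cleared -/
def dual0 {n : ℕ} (f : MvPolynomial (Fin n) ℂ) : MvPolynomial (Fin n) ℂ :=
  Rd f ^ f.totalDegree - f * ∑ k ∈ Finset.range (f.totalDegree + 1),
    gsub f (homogeneousComponent k (bar f)) * Rd f ^ (f.totalDegree - k)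

lemma eval_bar {n : ℕ} (p : MvPolynomial (Fin n) ℂ) (z : Fin n → ℂ) :
    eval z (bar p) = conj (eval (fun i => conj (z i)) p) := by
  induction p using MvPolynomial.induction_on with
  | C a => simp [bar]
  | add p q hp hq =>
    have : bar (p + q) = bar p + bar q := by simp [bar]
    rw [this, map_add, map_add, map_add, hp, hq]
  | mul_X p k hp =>
    have : bar (p * X k) = bar p * X k := by simp [bar]
    rw [this, map_mul, map_mul, map_mul, hp, eval_X, eval_X, Complex.conj_conj]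

lemma eval_gsub {n : ℕ} (f Q : MvPolynomial (Fin n) ℂ) (z : Fin n → ℂ) :
    eval z (gsub f Q) = eval (fun j => eval z (pderiv j f)) Q := by
  unfold gsub
  have h := MvPolynomial.eval₂Hom_bind₁ (RingHom.id ℂ) z (fun j => pderiv j f) Q
  exact h

lemma Rd_add {n : ℕ} (p q : MvPolynomial (Fin n) ℂ) : Rd (p + q) = Rd p + Rd q := by
  simp [Rd, mul_add, Finset.sum_add_distrib]

lemma Rd_mul {n : ℕ} (p q : MvPolynomial (Fin n) ℂ) : Rd (p * q) = p * Rd q + q * Rd p := by
  unfold Rd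
  rw [Finset.mul_sum, Finset.mul_sum, ← Finset.sum_add_distrib]
  refine Finset.sum_congr rfl fun l _ => ?_
  rw [Derivation.leibniz, smul_eq_mul, smul_eq_mul]
  ring

lemma Rd_monomial {n : ℕ} (γ : Fin n →₀ ℕ) (a : ℂ) :
    Rd (monomial γ a) = (γ.degree : ℂ) • monomial γ a := by
  have h := (isHomogeneous_monomial a (rfl : γ.degree = γ.degree)).sum_X_mul_pderiv
  unfold Rd
  rw [h, ← Nat.cast_smul_eq_nsmul ℂ]

lemma coeff_Rd {n : ℕ} (p : MvPolynomial (Fin n) ℂ) (γ : Fin n →₀ ℕ) :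
    coeff γ (Rd p) = (γ.degree : ℂ) * coeff γ p := by
  induction p using MvPolynomial.induction_on' with
  | monomial δ a =>
    rw [Rd_monomial, coeff_smul, coeff_monomial, smul_eq_mul]
    split_ifs with h
    · rw [h]
    · simp
  | add p q hp hq => rw [Rd_add, coeff_add, coeff_add, hp, hq, mul_add]

/-- if `p` divides its radial derivative then `p` is homogeneous -/
lemma homog_of_dvd_Rd {n : ℕ} {p : MvPolynomial (Fin n) ℂ} (hp : p ∣ Rd p) :
    ∃ k, p.IsHomogeneous k := by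
  by_cases hp0 : p = 0
  · exact ⟨0, by rw [hp0]; exact isHomogeneous_zero _ _ _⟩
  obtain ⟨h, hh⟩ := hp
  have key : ∃ c : ℂ, h = C c := by
    by_cases hh0 : h = 0
    · exact ⟨0, by rw [hh0, C_0]⟩
    have h1 : (Rd p).totalDegree = p.totalDegree + h.totalDegree := by
      rw [hh, totalDegree_mul_of_isDomain hp0 hh0]
    have h2 : (Rd p).totalDegree ≤ p.totalDegree := by
      refine Finset.sup_le fun γ hγ => ?_
      have h3 : coeff γ (Rd p) ≠ 0 := mem_support_iff.1 hγ
      rw [coeff_Rd] at h3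
      exact le_totalDegree (mem_support_iff.2 (right_ne_zero_of_mul h3))
    have h3 : h.totalDegree = 0 := by omega
    exact ⟨coeff 0 h, totalDegree_eq_zero_iff_eq_C.1 h3⟩
  obtain ⟨c, hc⟩ := key
  obtain ⟨δ, hδ⟩ := ne_zero_iff.1 hp0
  have hcoef : ∀ γ, (γ.degree : ℂ) * coeff γ p = c * coeff γ p := by
    intro γ
    rw [← coeff_Rd, hh, hc, mul_comm, coeff_C_mul]
  refine ⟨δ.degree, ?_⟩
  intro γ hγ
  have e1 := mul_right_cancel₀ hγ (hcoef γ)
  have e2 := mul_right_cancel₀ hδ (hcoef δ)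
  have e3 : (γ.degree : ℂ) = δ.degree := e1.trans e2.symm
  have e4 : γ.degree = δ.degree := by exact_mod_cast e3
  rw [← e4, Finsupp.degree_eq_weight_one]
  rfl

/-- if all prime factors of `f` are homogeneous then so is `f` -/
lemma homog_of_primes {n : ℕ} (f : MvPolynomial (Fin n) ℂ) (hf : f ≠ 0)
    (h : ∀ p, Prime p → p ∣ f → ∃ k, p.IsHomogeneous k) : ∃ k, f.IsHomogeneous k := by
  induction f using UniqueFactorizationMonoid.induction_on_prime with
  | h₁ => exact absurd rfl hf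
  | h₂ x hx =>
    obtain ⟨c, _, rfl⟩ := (MvPolynomial.isUnit_iff_eq_C_of_isReduced).1 hx
    exact ⟨0, isHomogeneous_C _ _⟩
  | h₃ a p ha hp ih =>
    obtain ⟨k, hk⟩ := h p hp (dvd_mul_right _ _)
    obtain ⟨l, hl⟩ := ih ha fun q hq hqa => h q hq (hqa.mul_left _)
    exact ⟨k + l, hk.mul hl⟩

lemma gsub_homog {n : ℕ} {f Q : MvPolynomial (Fin n) ℂ} {k : ℕ} (hQ : Q.IsHomogeneous k)
    (c : MvPolynomial (Fin n) ℂ) (t : Fin n → MvPolynomial (Fin n) ℂ)
    (ht : ∀ j, pderiv j f = c * t j) : gsub f Q = c ^ k * bind₁ t Q := by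
  unfold gsub
  have h1 : (fun j => pderiv j f) = fun j => c * t j := funext ht
  rw [h1]
  show aeval _ Q = c ^ k * aeval _ Q
  rw [aeval_def, aeval_def, eval₂_eq', eval₂_eq', Finset.mul_sum]
  refine Finset.sum_congr rfl fun γ hγ => ?_
  have h2 : γ.degree = k := by
    have := hQ (mem_support_iff.1 hγ)
    rw [Finsupp.degree_eq_weight_one]
    exact this
  have h3 : ∏ i, (c * t i) ^ γ i = c ^ k * ∏ i, t i ^ γ i := by
    simp only [mul_pow, Finset.prod_mul_distrib]
    congr 1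
    rw [Finset.prod_pow_eq_pow_sum, ← h2, Finsupp.degree_eq_sum]
  rw [h3]
  ring

/-- the valuation argument -/
lemma prime_dvd_Rd {n : ℕ} {f p : MvPolynomial (Fin n) ℂ} (hp : Prime p) (hpf : p ∣ f)
    (hf : f ≠ 0) (h0 : dual0 f = 0) : p ∣ Rd p := by
  obtain ⟨m, u, hpu, hu⟩ := WfDvdMonoid.max_power_factor' hf hp.not_isUnit
  have hm0 : m ≠ 0 := by
    intro h
    rw [h, pow_zero, one_mul] at hu
    exact hpu (hu ▸ hpf)
  obtain ⟨l, hl⟩ : ∃ l, m = l + 1 := Nat.exists_eq_succ_of_ne_zero hm0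
  subst hl
  set t : Fin n → MvPolynomial (Fin n) ℂ := fun j => ((l + 1 : ℕ) : MvPolynomial (Fin n) ℂ) *
    u * pderiv j p + p * pderiv j u with ht
  have ht1 : ∀ j, pderiv j f = p ^ l * t j := by
    intro j
    rw [hu, pderiv_mul, pderiv_pow, ht]
    simp only [Nat.add_sub_cancel]
    ring
  set s : MvPolynomial (Fin n) ℂ := ((l + 1 : ℕ) : MvPolynomial (Fin n) ℂ) * u * Rd p +
    p * Rd u with hs
  have hs1 : Rd f = p ^ l * s := by
    have : Rd f = ∑ j, X j * (p ^ l * t j) := by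
      unfold Rd
      exact Finset.sum_congr rfl fun j _ => by rw [ht1]
    rw [this, hs, Rd, Rd, Finset.mul_sum, Finset.mul_sum, ← Finset.sum_add_distrib,
      Finset.mul_sum]
    refine Finset.sum_congr rfl fun j _ => ?_
    rw [ht]
    ring
  set d := f.totalDegree with hdd
  have h1 : (p ^ l) ^ d * s ^ d = (p ^ l) ^ d * (p * (p ^ l * u * ∑ k ∈ Finset.range (d + 1),
      bind₁ t (homogeneousComponent k (bar f)) * s ^ (d - k))) := by
    have h2 : dual0 f = (p ^ l * s) ^ d - f * ∑ k ∈ Finset.range (d + 1),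
      ((p ^ l) ^ k * bind₁ t (homogeneousComponent k (bar f))) * (p ^ l * s) ^ (d - k) := by
      unfold dual0
      rw [← hdd, hs1]
      congr 2
      refine Finset.sum_congr rfl fun k _ => ?_
      rw [gsub_homog (homogeneousComponent_isHomogeneous k _) (p ^ l) t ht1]
    rw [h0] at h2
    have h3 : ∑ k ∈ Finset.range (d + 1),
        ((p ^ l) ^ k * bind₁ t (homogeneousComponent k (bar f))) * (p ^ l * s) ^ (d - k) =
        (p ^ l) ^ d * ∑ k ∈ Finset.range (d + 1),
          bind₁ t (homogeneousComponent k (bar f)) * s ^ (d - k) := by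
      rw [Finset.mul_sum]
      refine Finset.sum_congr rfl fun k hk => ?_
      have hkd : k ≤ d := Nat.lt_succ_iff.1 (Finset.mem_range.1 hk)
      have : (p ^ l) ^ d = (p ^ l) ^ k * (p ^ l) ^ (d - k) := by
        rw [← pow_add, Nat.add_sub_cancel' hkd]
      rw [this, mul_pow]
      ring
    rw [h3] at h2
    have h4 := sub_eq_zero.1 h2.symm
    rw [mul_pow] at h4
    rw [h4]
    generalize (∑ k ∈ Finset.range (d + 1),
          bind₁ t (homogeneousComponent k (bar f)) * s ^ (d - k)) = T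
    rw [hu]
    ring
  have h2 := mul_left_cancel₀ (pow_ne_zero d (pow_ne_zero l hp.ne_zero)) h1
  have h3 : p ∣ s := hp.dvd_of_dvd_pow ⟨_, h2⟩
  have h4 : p ∣ ((l + 1 : ℕ) : MvPolynomial (Fin n) ℂ) * u * Rd p := by
    have := dvd_sub h3 (dvd_mul_right p (Rd u))
    rwa [hs, add_sub_cancel_right] at this
  rcases hp.dvd_or_dvd h4 with h5 | h5
  · rcases hp.dvd_or_dvd h5 with h6 | h6
    · exfalso
      have h7 : IsUnit ((l + 1 : ℕ) : MvPolynomial (Fin n) ℂ) := by
        have h8 : ((l + 1 : ℕ) : MvPolynomial (Fin n) ℂ) = C ((l + 1 : ℕ) : ℂ) := by simp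
        rw [h8]
        exact IsUnit.map C (IsUnit.mk0 _ (Nat.cast_ne_zero.2 (Nat.succ_ne_zero l)))
      exact hp.not_isUnit (isUnit_of_dvd_unit h6 h7)
    · exact absurd h6 hpu
  · exact h5

/-- a polynomial with `dual0 f = 0` is homogeneous -/
theorem homog_of_dual0 {n : ℕ} (f : MvPolynomial (Fin n) ℂ) (h0 : dual0 f = 0) :
    ∃ k, f.IsHomogeneous k := by
  by_cases hf : f = 0
  · exact ⟨0, by rw [hf]; exact isHomogeneous_zero _ _ _⟩
  exact homog_of_primes f hf fun p hp hpf => homog_of_dvd_Rd (prime_dvd_Rd hp hpf hf h0)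

end

end Pool.Agent.Lib.MP_6ff8d9_an.Hom.H20
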