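import Mathlib

/-!
# The fixed set of an antiholomorphic involution is a set of uniqueness
-/

open Metric Filter Topology
open scoped ComplexConjugate

namespace Pool.Agent.Lib.MP_6ff8d9_an.Hom.H20

noncomputable section

/-- the conjugate of a complex linear map -/
def conjL {n : ℕ} (L : (Fin n → ℂ) →L[ℂ] (Fin n → ℂ)) : (Fin n → ℂ) →L[ℂ] (Fin n → ℂ) :=
  LinearMap.toContinuousLinearMap
    { toFun := fun y => star (L (star y))
      map_add' := fun x y => by rw [star_add, map_add, star_add]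
      map_smul' := fun c x => by
        rw [star_smul, map_smul, star_smul, star_star, RingHom.id_apply] }

lemma conjL_apply {n : ℕ} (L : (Fin n → ℂ) →L[ℂ] (Fin n → ℂ)) (y : Fin n → ℂ) :
    conjL L y = star (L (star y)) := rfl

/-- one variable: a differentiable function on `ball 0 2` that vanishes at real points vanishes at
`i` -/
lemma one_var (φ : ℂ → ℂ) (hφ : DifferentiableOn ℂ φ (ball 0 2))
    (h0 : ∀ t : ℝ, |t| < 2 → φ t = 0) : φ Complex.I = 0 := by
  have han : AnalyticOnNhd ℂ φ (ball 0 2) := hφ.analyticOnNhd isOpen_ball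
  have hfr : ∃ᶠ z in 𝓝[≠] (0 : ℂ), φ z = 0 := by
    have ht : Tendsto (fun t : ℝ => (t : ℂ)) (𝓝[≠] 0) (𝓝[≠] 0) := by
      refine tendsto_nhdsWithin_of_tendsto_nhds_of_eventually_within _ ?_ ?_
      · exact (Complex.continuous_ofReal.tendsto' 0 0 rfl).mono_left nhdsWithin_le_nhds
      · filter_upwards [self_mem_nhdsWithin] with t ht
        simpa using ht
    refine ht.frequently ?_
    have h1 : ∀ᶠ t : ℝ in 𝓝[≠] 0, φ t = 0 := by
      have h2 : ∀ᶠ t : ℝ in 𝓝 0, |t| < 2 := by
        have : Tendsto (fun t : ℝ => |t|) (𝓝 0) (𝓝 |0|) := continuous_abs.tendsto 0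
        rw [abs_zero] at this
        exact this.eventually_lt_const two_pos
      exact nhdsWithin_le_nhds (h2.mono fun t ht => h0 t ht)
    exact h1.frequently
  have h := han.eqOn_zero_of_preconnected_of_frequently_eq_zero
    (convex_ball (0 : ℂ) 2).isPreconnected (mem_ball_self two_pos) hfr
  refine h ?_
  rw [mem_ball_zero_iff, Complex.norm_I]
  norm_num

theorem tot_real {n : ℕ} (Ψ : (Fin n → ℂ) → (Fin n → ℂ)) (ζ : Fin n → ℂ)
    (hΨ : ContDiffAt ℂ 1 Ψ ζ) (hfix : star (Ψ ζ) = ζ)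
    (hinv : ∀ᶠ z in 𝓝 ζ, star (Ψ (star (Ψ z))) = z)
    (p : (Fin n → ℂ) → ℂ) (hp : Differentiable ℂ p)
    (hzero : ∀ᶠ z in 𝓝 ζ, star (Ψ z) = z → p z = 0) : ∀ᶠ z in 𝓝 ζ, p z = 0 := by
  set L := fderiv ℂ Ψ ζ with hL
  have hLs : HasStrictFDerivAt Ψ L ζ := hΨ.hasStrictFDerivAt (by norm_num)
  have hLf : HasFDerivAt Ψ L ζ := hLs.hasFDerivAt
  have hΨζ : Ψ ζ = star ζ := by
    have h0 := congrArg star hfix
    rwa [star_star] at h0
  -- the derivative of the involution is an involution
  have hcc : ∀ x, star (L (star (L x))) = x := by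
    have h1 : HasFDerivAt (𝕜 := ℝ) Ψ (L.restrictScalars ℝ) ζ := hLf.restrictScalars ℝ
    have h2 := h1.star
    have h3 : HasFDerivAt (𝕜 := ℝ) (fun z => star (Ψ z))
      (((starL' ℝ : (Fin n → ℂ) ≃L[ℝ] (Fin n → ℂ)) : (Fin n → ℂ) →L[ℝ] (Fin n → ℂ)) ∘L
        L.restrictScalars ℝ) (star (Ψ ζ)) := by
      rw [hfix]
      exact h2
    have h4 := h3.comp ζ h2
    have h5 : HasFDerivAt (𝕜 := ℝ) ((fun z => star (Ψ z)) ∘ fun z => star (Ψ z))
      (ContinuousLinearMap.id ℝ (Fin n → ℂ)) ζ := by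
      refine (hasFDerivAt_id ζ).congr_of_eventuallyEq ?_
      filter_upwards [hinv] with z hz
      exact hz
    have h6 := h4.unique h5
    intro x
    have h7 := congrArg (fun T : (Fin n → ℂ) →L[ℝ] (Fin n → ℂ) => T x) h6
    exact h7
  set h : (Fin n → ℂ) → (Fin n → ℂ) :=
    fun z => (1 / 2 : ℂ) • ((z - ζ) + conjL L (Ψ z - star ζ)) with hh
  have hLL : (conjL L).comp L = ContinuousLinearMap.id ℂ (Fin n → ℂ) := by
    ext1 x
    exact hcc x
  have hcd : ContDiffAt ℂ 1 h ζ := by
    refine ContDiffAt.const_smul _ ?_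
    exact (contDiffAt_id.sub contDiffAt_const).add
      ((conjL L).contDiff.contDiffAt.comp ζ (hΨ.sub contDiffAt_const))
  have hder : HasFDerivAt h ((ContinuousLinearEquiv.refl ℂ (Fin n → ℂ) :
      (Fin n → ℂ) ≃L[ℂ] (Fin n → ℂ)) : (Fin n → ℂ) →L[ℂ] (Fin n → ℂ)) ζ := by
    have h1 : HasFDerivAt h ((1 / 2 : ℂ) • (ContinuousLinearMap.id ℂ (Fin n → ℂ) +
        (conjL L).comp L)) ζ := by
      refine HasFDerivAt.fun_const_smul ?_ _
      exact ((hasFDerivAt_id ζ).sub_const ζ).add
        ((conjL L).hasFDerivAt.comp ζ (hLf.sub_const (star ζ)))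
    rw [hLL] at h1
    convert! h1 using 1
    ext x
    simp
    ring
  have hhζ : h ζ = 0 := by
    simp only [hh, hΨζ, sub_self, map_zero, add_zero, smul_zero]
  set k := hcd.localInverse hder one_ne_zero with hk
  have hs := hcd.hasStrictFDerivAt' hder one_ne_zero
  have e1 : ∀ᶠ z in 𝓝 ζ, k (h z) = z := hs.eventually_left_inverse
  have e2 : ∀ᶠ y in 𝓝 (0 : Fin n → ℂ), h (k y) = y := by
    have := hs.eventually_right_inverse
    rwa [hhζ] at this
  have e3 : ∀ᶠ y in 𝓝 (0 : Fin n → ℂ), DifferentiableAt ℂ k y := by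
    have h1 := hcd.to_localInverse hder one_ne_zero
    rw [hhζ] at h1
    have h2 := h1.eventually (by norm_num)
    exact h2.mono fun y hy => hy.differentiableAt (by norm_num)
  have e4 : Tendsto k (𝓝 (0 : Fin n → ℂ)) (𝓝 ζ) := by
    have := hs.localInverse_tendsto
    rwa [hhζ] at this
  have hσc : ContinuousAt (fun z => star (Ψ z)) ζ := hΨ.continuousAt.star
  have hσt : Tendsto (fun z => star (Ψ z)) (𝓝 ζ) (𝓝 ζ) := by
    have := hσc.tendsto
    rwa [hfix] at this
  -- the chart conjugates the involution to its derivative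
  have e5 : ∀ᶠ z in 𝓝 ζ, h (star (Ψ z)) = star (L (h z)) := by
    filter_upwards [hinv] with z hz
    have h1 : Ψ (star (Ψ z)) = star z := by rw [← hz, star_star, hz]
    simp only [hh]
    rw [h1, map_smul, map_add, conjL_apply, conjL_apply, star_smul, star_add, hcc]
    have h2 : star (star z - star ζ) = z - ζ := by rw [star_sub, star_star, star_star]
    have h3 : star (Ψ z - star ζ) = star (Ψ z) - ζ := by rw [star_sub, star_star]
    have h4 : star (1 / 2 : ℂ) = 1 / 2 := by
      rw [Complex.star_def, map_div₀, map_one, map_ofNat]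
    rw [h2, h3, h4, add_comm]
  have e6 : ∀ᶠ y in 𝓝 (0 : Fin n → ℂ), star (L y) = y → p (k y) = 0 := by
    filter_upwards [e2, e4.eventually e5, e4.eventually (hσt.eventually e1), e4.eventually hzero]
      with y h2 h5 h1 h0 hy
    apply h0
    rw [h2, hy] at h5
    rw [← h1, h5]
  obtain ⟨δ, hδ, hδ1⟩ := Metric.eventually_nhds_iff_ball.1 (e3.and e6)
  have hM : 0 < 3 * (1 + ‖L‖) := by positivity
  have e7 : ∀ᶠ y in 𝓝 (0 : Fin n → ℂ), p (k y) = 0 := by
    refine Metric.eventually_nhds_iff_ball.2 ⟨δ / (3 * (1 + ‖L‖)), by positivity, fun y hy => ?_⟩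
    rw [mem_ball_zero_iff, lt_div_iff₀ hM] at hy
    set c : Fin n → ℂ := star (L y) with hc
    have hcy : star (L c) = y := hcc y
    have hcn : ‖c‖ ≤ ‖L‖ * ‖y‖ := by
      rw [hc, norm_star]
      exact L.le_opNorm y
    set a : Fin n → ℂ := (1 / 2 : ℂ) • (y + c) with ha
    set b : Fin n → ℂ := (1 / (2 * Complex.I) : ℂ) • (y - c) with hb
    have han : ‖a‖ ≤ (1 + ‖L‖) * ‖y‖ := by
      rw [ha, norm_smul]
      have h1 : ‖(1 / 2 : ℂ)‖ = 1 / 2 := by norm_num
      rw [h1]
      have := norm_add_le y c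
      nlinarith [norm_nonneg y, norm_nonneg (y + c)]
    have hbn : ‖b‖ ≤ (1 + ‖L‖) * ‖y‖ := by
      rw [hb, norm_smul]
      have h1 : ‖(1 / (2 * Complex.I) : ℂ)‖ = 1 / 2 := by
        rw [norm_div, norm_mul, Complex.norm_I]
        norm_num
      rw [h1]
      have := norm_sub_le y c
      nlinarith [norm_nonneg y, norm_nonneg (y - c)]
    have hmem : ∀ l : ℂ, ‖l‖ < 2 → a + l • b ∈ ball (0 : Fin n → ℂ) δ := by
      intro l hl
      rw [mem_ball_zero_iff]
      have h1 := norm_add_le a (l • b)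
      have h0 : ‖l • b‖ = ‖l‖ * ‖b‖ := norm_smul l b
      rw [h0] at h1
      have h2 : ‖l‖ * ‖b‖ ≤ 2 * ((1 + ‖L‖) * ‖y‖) :=
        mul_le_mul hl.le hbn (norm_nonneg _) (by norm_num)
      nlinarith
    have h1 := one_var (fun l => p (k (a + l • b))) ?_ ?_
    · have h2 : a + Complex.I • b = y := by
        rw [ha, hb, smul_smul]
        have : Complex.I * (1 / (2 * Complex.I)) = 1 / 2 := by
          field_simp
        rw [this, ← smul_add]
        have h3 : y + c + (y - c) = (2 : ℂ) • y := by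
          rw [two_smul]; abel
        rw [h3, smul_smul]
        norm_num
      have h3 : p (k (a + Complex.I • b)) = 0 := h1
      rwa [h2] at h3
    · intro l hl
      rw [mem_ball_zero_iff] at hl
      have h2 := (hδ1 _ (hmem l hl)).1
      have h3 : DifferentiableAt ℂ (fun l : ℂ => a + l • b) l :=
        (differentiableAt_const a).add (differentiableAt_id.smul_const b)
      have h4 : DifferentiableAt ℂ (fun l : ℂ => k (a + l • b)) l := h2.comp l h3
      exact ((hp _).comp l h4).differentiableWithinAt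
    · intro t ht
      have hmt := hmem (t : ℂ) (by rw [Complex.norm_real]; exact ht)
      refine (hδ1 _ hmt).2 ?_
      rw [ha, hb, map_add, map_smul, map_smul, map_smul, map_add, map_sub, star_add, star_smul,
        star_smul, star_smul, star_add, star_sub, ← hc, hcy]
      have h2 : star (1 / 2 : ℂ) = 1 / 2 := by
        rw [Complex.star_def, map_div₀, map_one, map_ofNat]
      have h3 : star (1 / (2 * Complex.I) : ℂ) = - (1 / (2 * Complex.I)) := by
        rw [Complex.star_def, map_div₀, map_one, map_mul, Complex.conj_I, map_ofNat]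
        field_simp
      have h4 : star (t : ℂ) = t := Complex.conj_ofReal t
      rw [h2, h3, h4, add_comm c y]
      congr 2
      rw [neg_smul, ← smul_neg, neg_sub]
  have e8 : Tendsto h (𝓝 ζ) (𝓝 0) := by
    have := hcd.continuousAt.tendsto
    rwa [hhζ] at this
  filter_upwards [e1, e8.eventually e7] with z h1 h2
  rwa [h1] at h2

end

end Pool.Agent.Lib.MP_6ff8d9_an.Hom.H20
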