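import Pool.Agent.Lib.MP_6ff8d9_an_h20.Dom
import Pool.Agent.Lib.MP_6ff8d9_an_h20.TotReal

/-!
# If the conjugate gradient map of `f` is an involution (up to the factor `m^m f^(m-2)`) then no
nonzero polynomial is dominated by `1 - |f|²` on the sphere
-/

open Metric Filter Topology MvPolynomial
open scoped ComplexConjugate

namespace Pool.Agent.Lib.MP_6ff8d9_an.Hom.H20

open M2 M5

noncomputable section

/-- the conjugate gradient -/
def cgrad {n : ℕ} (f : MvPolynomial (Fin n) ℂ) (z : Fin n → ℂ) : Fin n → ℂ :=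
  fun j => conj (eval z (pderiv j f))

lemma contDiff_eval {n : ℕ} (p : MvPolynomial (Fin n) ℂ) {N : WithTop ℕ∞} :
    ContDiff ℂ N fun z : Fin n → ℂ => eval z p := by
  induction p using MvPolynomial.induction_on with
  | C a => simp only [eval_C]; exact contDiff_const
  | add p q hp hq =>
    simp only [map_add]
    exact hp.add hq
  | mul_X p i hp =>
    simp only [map_mul, eval_X]
    exact hp.mul (contDiff_apply ℂ ℂ i)

lemma euler' {n : ℕ} {f : MvPolynomial (Fin n) ℂ} {m : ℕ} (hfm : f.IsHomogeneous m)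
    (z : Fin n → ℂ) : ∑ l, z l * eval z (pderiv l f) = (m : ℂ) * eval z f := by
  have h3 := congrArg (eval z) hfm.sum_X_mul_pderiv
  rw [nsmul_eq_mul, map_mul, map_natCast, map_sum] at h3
  rw [← h3]
  refine Finset.sum_congr rfl fun l _ => ?_
  rw [map_mul, eval_X]

/-- a maximum point on the sphere -/
lemma exists_max {n : ℕ} (hn : 1 ≤ n) (f : MvPolynomial (Fin n) ℂ) (hf0 : f ≠ 0) {m : ℕ}
    (hm : 1 ≤ m) (hfm : f.IsHomogeneous m) :
    ∃ ζ ∈ Sph n, eval ζ f ≠ 0 ∧ (∀ i, eval ζ (pderiv i f) = conj (ζ i) * (m * eval ζ f)) ∧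
      ∀ z ∈ Sph n, ‖eval z f‖ ≤ ‖eval ζ f‖ := by
  have hcomp : IsCompact (Sph n) := by
    refine Metric.isCompact_of_isClosed_isBounded ?_ ?_
    · exact isClosed_eq (by fun_prop) continuous_const
    · refine (isBounded_closedBall (x := (0 : Fin n → ℂ)) (r := 1)).subset fun z hz => ?_
      rw [mem_closedBall_zero_iff, pi_norm_le_iff_of_nonneg zero_le_one]
      exact fun i => sph_le hz i
  obtain ⟨ζ₀, hζ₀⟩ := exists_sph hn
  have hcont : Continuous fun z : Fin n → ℂ => ‖eval z f‖ :=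
    (contDiff_eval f (N := 0)).continuous.norm
  obtain ⟨ζ, hζ, hmax⟩ := hcomp.exists_isMaxOn ⟨ζ₀, hζ₀⟩ hcont.continuousOn
  have hne : eval ζ f ≠ 0 := by
    intro h0
    apply hf0
    have hz : ∀ z ∈ Sph n, eval z f = 0 := by
      intro z hz
      have := hmax hz
      simp only [Set.mem_ofPred_eq, h0, norm_zero] at this
      exact norm_le_zero_iff.1 this
    refine eq_zero_of_ball f fun z hz1 => ?_
    by_cases hz0 : z = 0
    · rw [hz0]
      exact eval_zero_eq (fun _ => 1) hm (fun _ => one_pos) hfm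
    · obtain ⟨r, hr0, hr1, ξ, hξ, hzξ⟩ := exists_polar (fun _ => 1) (fun _ => one_pos) z hz0 hz1
      have h5 : z = (fun i => (r : ℂ) ^ 1 * ξ i) := funext hzξ
      rw [h5, eval_scale (fun _ => 1) hfm, hz ξ hξ, mul_zero]
  refine ⟨ζ, hζ, hne, fun i => ?_, fun z hz => hmax hz⟩
  have hμ : 0 < ‖eval ζ f‖ := norm_pos_iff.2 hne
  set c : ℂ := ((‖eval ζ f‖ : ℝ) : ℂ)⁻¹ with hc
  have hc0 : c ≠ 0 := inv_ne_zero (by exact_mod_cast hμ.ne')
  have hcn : ‖c‖ = ‖eval ζ f‖⁻¹ := by
    rw [hc, norm_inv, Complex.norm_real, norm_norm]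
  have hhom : (C c * f).IsHomogeneous m := by
    have := (isHomogeneous_C (Fin n) c).mul hfm
    rwa [zero_add] at this
  have hle : ∀ z ∈ Sph n, ‖eval z (C c * f)‖ ≤ 1 := by
    intro z hz
    have h1 : ‖eval z f‖ ≤ ‖eval ζ f‖ := hmax hz
    rw [map_mul, eval_C, norm_mul, hcn]
    rw [inv_mul_le_iff₀ hμ, mul_one]
    exact h1
  obtain ⟨K, hK0, hK⟩ := tang (C c * f) fun z hz =>
    norm_le_one (fun _ => 1) (fun _ => one_pos) hm (C c * f) hhom hle z hz
  have h1 := hK ζ hζ i
  have h2 : ‖eval ζ (C c * f)‖ = 1 := by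
    rw [map_mul, eval_C, norm_mul, hcn, inv_mul_cancel₀ hμ.ne']
  rw [h2] at h1
  have h3 : Dd ζ i (C c * f) = c * Dd ζ i f := by
    simp only [Dd, pderiv_C_mul, map_mul, eval_C, Finset.mul_sum]
    refine Finset.sum_congr rfl fun l _ => by ring
  rw [h3] at h1
  have h4 : c * Dd ζ i f = 0 := by
    rw [← norm_le_zero_iff]
    simpa using h1
  have h5 : Dd ζ i f = 0 := (mul_eq_zero.1 h4).resolve_left hc0
  rw [Dd_eq, euler' hfm] at h5
  exact sub_eq_zero.1 h5

section

variable {n : ℕ} {f : MvPolynomial (Fin n) ℂ} {m : ℕ}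

/-- contact at the maximum point -/
lemma contact (hm : 2 ≤ m) (hfm : f.IsHomogeneous m)
    (hG : ∀ z i, cgrad f (cgrad f z) i = (m : ℂ) ^ m * eval z f ^ (m - 2) * z i)
    {ζ : Fin n → ℂ} (hζ : ζ ∈ Sph n) (hne : eval ζ f ≠ 0)
    (hgr : ∀ i, eval ζ (pderiv i f) = conj (ζ i) * (m * eval ζ f)) : ‖eval ζ f‖ = 1 := by
  have hm0 : (m : ℂ) ≠ 0 := by exact_mod_cast (by omega : m ≠ 0)
  obtain ⟨i, hi⟩ : ∃ i, ζ i ≠ 0 := by
    by_contra hcon
    push Not at hcon
    have : ∑ i, ‖ζ i‖ ^ 2 = 1 := hζ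
    simp [hcon] at this
  have h1 : cgrad f ζ = fun j => (m * conj (eval ζ f)) * ζ j := by
    funext j
    unfold cgrad
    rw [hgr, map_mul, Complex.conj_conj, map_mul, map_natCast]
    ring
  have h2 := hG ζ i
  rw [h1] at h2
  unfold cgrad at h2
  rw [eval_smul_homog hfm.pderiv, hgr, map_mul, map_mul, map_mul, Complex.conj_conj, map_pow,
    map_mul, map_natCast, Complex.conj_conj] at h2
  obtain ⟨k, rfl⟩ : ∃ k, m = k + 2 := ⟨m - 2, by omega⟩
  have e1 : k + 2 - 1 = k + 1 := by omega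
  have e2 : k + 2 - 2 = k := by omega
  rw [e1, e2] at h2
  have h3 : eval ζ f * conj (eval ζ f) = 1 := by
    have h4 : ((k + 2 : ℕ) : ℂ) ^ (k + 2) * eval ζ f ^ k * ζ i ≠ 0 :=
      mul_ne_zero (mul_ne_zero (pow_ne_zero _ hm0) (pow_ne_zero _ hne)) hi
    apply mul_left_cancel₀ h4
    linear_combination h2
  rw [Complex.mul_conj, Complex.normSq_eq_norm_sq] at h3
  have h4 : ‖eval ζ f‖ ^ 2 = 1 := by exact_mod_cast h3
  nlinarith [norm_nonneg (eval ζ f)]

/-- the reflected point -/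
def refl (f : MvPolynomial (Fin n) ℂ) (m : ℕ) (z : Fin n → ℂ) : Fin n → ℂ :=
  fun j => eval z (pderiv j f) / (m * eval z f)

lemma star_refl (z : Fin n → ℂ) :
    star (refl f m z) = fun j => (1 / (m * conj (eval z f))) * cgrad f z j := by
  funext j
  show conj (eval z (pderiv j f) / (m * eval z f)) = _
  rw [map_div₀, map_mul, map_natCast]
  unfold cgrad
  ring

lemma refl_facts (hm : 2 ≤ m) (hfm : f.IsHomogeneous m)
    (hG : ∀ z i, cgrad f (cgrad f z) i = (m : ℂ) ^ m * eval z f ^ (m - 2) * z i)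
    {z : Fin n → ℂ} (hne : eval z f ≠ 0) :
    eval (star (refl f m z)) f = 1 / conj (eval z f) ∧
      star (refl f m (star (refl f m z))) = z := by
  have hm0 : (m : ℂ) ≠ 0 := by exact_mod_cast (by omega : m ≠ 0)
  have hne' : conj (eval z f) ≠ 0 := (map_ne_zero _).2 hne
  set c : ℂ := 1 / (m * conj (eval z f)) with hc
  have hcc : conj c = 1 / (m * eval z f) := by
    rw [hc, map_div₀, map_one, map_mul, map_natCast, Complex.conj_conj]
  set w := star (refl f m z) with hw
  have hw1 : w = fun j => c * cgrad f z j := star_refl z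
  have h1 : ∀ j, conj (eval w (pderiv j f)) = (m / eval z f) * z j := by
    intro j
    rw [hw1, eval_smul_homog hfm.pderiv, map_mul, map_pow, hcc]
    have h2 : conj (eval (cgrad f z) (pderiv j f)) =
      (m : ℂ) ^ m * eval z f ^ (m - 2) * z j := hG z j
    rw [h2]
    obtain ⟨k, rfl⟩ : ∃ k, m = k + 2 := ⟨m - 2, by omega⟩
    have e1 : k + 2 - 1 = k + 1 := by omega
    have e2 : k + 2 - 2 = k := by omega
    rw [e1, e2, one_div, inv_pow, mul_pow]
    field_simp
    ring
  have h2 : ∀ j, eval w (pderiv j f) = (m / conj (eval z f)) * conj (z j) := by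
    intro j
    have := congrArg conj (h1 j)
    rw [Complex.conj_conj, map_mul, map_div₀, map_natCast] at this
    exact this
  have h3 : eval w f = 1 / conj (eval z f) := by
    have h4 := euler' hfm w
    have h5 : ∑ l, w l * eval w (pderiv l f) = c * (m / conj (eval z f)) *
        conj (∑ l, z l * eval z (pderiv l f)) := by
      rw [map_sum, Finset.mul_sum]
      refine Finset.sum_congr rfl fun l _ => ?_
      rw [h2, map_mul]
      have : w l = c * cgrad f z l := congrFun hw1 l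
      rw [this]
      unfold cgrad
      ring
    rw [h5, euler' hfm, map_mul, map_natCast, hc] at h4
    have h6 : (m : ℂ) * eval w f = m * (1 / conj (eval z f)) := by
      rw [← h4]
      field_simp
    exact mul_left_cancel₀ hm0 h6
  refine ⟨h3, ?_⟩
  rw [star_refl]
  funext j
  have h4 : cgrad f w j = (m / eval z f) * z j := h1 j
  have h5 : conj (eval w f) = 1 / eval z f := by
    rw [h3, map_div₀, map_one, Complex.conj_conj]
  rw [h4, h5]
  field_simp

/-- the identity forces `|f| ≤ 1` on the sphere -/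
theorem bound_of_involution (hn : 1 ≤ n) (hf0 : f ≠ 0) (hm : 2 ≤ m) (hfm : f.IsHomogeneous m)
    (hG : ∀ z i, cgrad f (cgrad f z) i = (m : ℂ) ^ m * eval z f ^ (m - 2) * z i) :
    ∀ z ∈ Sph n, ‖eval z f‖ ≤ 1 := by
  obtain ⟨ζ, hζ, hne, hgr, hmax⟩ := exists_max hn f hf0 (by omega) hfm
  rw [contact hm hfm hG hζ hne hgr] at hmax
  exact hmax

theorem noDom_of_involution (hn : 1 ≤ n) (hf0 : f ≠ 0) (hm : 2 ≤ m) (hfm : f.IsHomogeneous m)
    (hG : ∀ z i, cgrad f (cgrad f z) i = (m : ℂ) ^ m * eval z f ^ (m - 2) * z i) : NoDom f := by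
  intro p hp
  have hm0 : (m : ℂ) ≠ 0 := by exact_mod_cast (by omega : m ≠ 0)
  obtain ⟨ζ, hζ, hne, hgr, _⟩ := exists_max hn f hf0 (by omega) hfm
  have hcon := contact hm hfm hG hζ hne hgr
  have hopen : ∀ᶠ z in 𝓝 ζ, eval z f ≠ 0 :=
    (contDiff_eval f (N := 0)).continuous.continuousAt.eventually_ne hne
  have hΨ : ContDiffAt ℂ 1 (refl f m) ζ := by
    rw [contDiffAt_pi]
    intro j
    exact (contDiff_eval _).contDiffAt.div (contDiffAt_const.mul (contDiff_eval f).contDiffAt)
      (mul_ne_zero hm0 hne)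
  have hfix : star (refl f m ζ) = ζ := by
    rw [star_refl]
    funext j
    unfold cgrad
    rw [hgr, map_mul, Complex.conj_conj, map_mul, map_natCast]
    have : conj (eval ζ f) ≠ 0 := (map_ne_zero _).2 hne
    field_simp
  have hzero : ∀ᶠ z in 𝓝 ζ, star (refl f m z) = z → eval z p = 0 := by
    filter_upwards [hopen] with z hz hfz
    have hfz' : ∀ j, conj (z j) = eval z (pderiv j f) / (m * eval z f) := by
      intro j
      have h1 := congrFun hfz j
      have h2 : conj (eval z (pderiv j f) / (m * eval z f)) = z j := h1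
      rw [← h2, Complex.conj_conj]
    have hzS : z ∈ Sph n := by
      show ∑ i, ‖z i‖ ^ 2 = 1
      have h1 : ((∑ i, ‖z i‖ ^ 2 : ℝ) : ℂ) = 1 := by
        push_cast
        have h2 : ∀ i, ((‖z i‖ : ℂ)) ^ 2 = z i * eval z (pderiv i f) / (m * eval z f) := by
          intro i
          rw [mul_div_assoc, ← hfz', Complex.mul_conj, Complex.normSq_eq_norm_sq]
          push_cast
          rfl
        rw [Finset.sum_congr rfl fun i _ => h2 i, ← Finset.sum_div, euler' hfm]
        exact div_self (mul_ne_zero hm0 hz)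
      exact_mod_cast h1
    have h1 := (refl_facts hm hfm hG hz).1
    rw [hfz] at h1
    have hz' : conj (eval z f) ≠ 0 := (map_ne_zero _).2 hz
    rw [eq_div_iff hz', Complex.mul_conj, Complex.normSq_eq_norm_sq] at h1
    have h2 : ‖eval z f‖ ^ 2 = 1 := by exact_mod_cast h1
    have h3 := hp z hzS
    rw [h2, sub_self] at h3
    exact norm_le_zero_iff.1 h3
  have hmain := tot_real (refl f m) ζ hΨ hfix
    (hopen.mono fun z hz => (refl_facts hm hfm hG hz).2) (fun z => eval z p)
    ((contDiff_eval p (N := 1)).differentiable (by norm_num)) hzero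
  obtain ⟨δ, hδ, hball⟩ := Metric.eventually_nhds_iff_ball.1 hmain
  refine MvPolynomial.funext_set (fun i : Fin n => ball (ζ i) δ) ?_ ?_
  · intro i
    exact infinite_of_mem_nhds (ζ i) (ball_mem_nhds _ hδ)
  · intro z hz
    rw [map_zero]
    refine hball z ?_
    rw [mem_ball_iff_norm, pi_norm_lt_iff hδ]
    intro i
    exact mem_ball_iff_norm.1 (hz i (Set.mem_univ i))

end

end

end Pool.Agent.Lib.MP_6ff8d9_an.Hom.H20
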