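import Pool.Agent.Lib.MP_6ff8d9_an_h20.Est

/-!
# A polynomial dominated by `1 - |f|²` on the sphere destroys extremality (general polynomial `f`)
-/

open Metric Filter Topology MvPolynomial
open scoped ComplexConjugate

namespace Pool.Agent.Lib.MP_6ff8d9_an.Hom.H20

open M2 M5

noncomputable section

lemma le_one_closed {n : ℕ} (f : MvPolynomial (Fin n) ℂ)
    (hlt : ∀ z ∈ ball (0 : Cn n) 1, ‖eval (fun i => z i) f‖ < 1) (z : Fin n → ℂ)
    (hz : ∑ i, ‖z i‖ ^ 2 ≤ 1) : ‖eval z f‖ ≤ 1 := by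
  have hcl : IsClosed {w : Cn n | ‖eval (fun i => w i) f‖ ≤ 1} :=
    isClosed_le (differentiable_eval f).continuous.norm continuous_const
  have hsub : closure (ball (0 : Cn n) 1) ⊆ {w : Cn n | ‖eval (fun i => w i) f‖ ≤ 1} :=
    closure_minimal (fun w hw => (hlt w hw).le) hcl
  have hmem : (WithLp.toLp 2 z : Cn n) ∈ closure (ball (0 : Cn n) 1) := by
    rw [closure_ball (0 : Cn n) one_ne_zero, mem_closedBall_zero_iff, EuclideanSpace.norm_eq,
      Real.sqrt_le_iff]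
    exact ⟨zero_le_one, by rw [one_pow]; exact hz⟩
  exact hsub hmem

theorem dom_ball_gen {n : ℕ} (hn : 1 ≤ n) (f p : MvPolynomial (Fin n) ℂ)
    (hlt : ∀ z ∈ ball (0 : Cn n) 1, ‖eval (fun i => z i) f‖ < 1)
    (hp : ∀ z ∈ Sph n, ‖eval z p‖ ≤ 1 - ‖eval z f‖ ^ 2) (w : Cn n) (hw : w ∈ ball (0 : Cn n) 1) :
    ‖eval (fun i => w i) p‖ ≤ 2 * (1 - ‖eval (fun i => w i) f‖ ^ 2) := by
  have : Nonempty (Fin n) := ⟨⟨0, hn⟩⟩
  set F := eval (fun i => w i) f with hF
  have hF1 : ‖F‖ < 1 := hlt w hw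
  have hle : ∀ z : Cn n, ‖z‖ ≤ 1 → ‖eval (fun i => z i) f‖ ≤ 1 := by
    intro z hz
    refine le_one_closed f hlt _ ?_
    rw [EuclideanSpace.norm_eq] at hz
    have h1 : 0 ≤ ∑ i, ‖z i‖ ^ 2 := Finset.sum_nonneg fun i _ => by positivity
    nlinarith [Real.sq_sqrt h1, Real.sqrt_nonneg (∑ i, ‖z i‖ ^ 2)]
  have hden : ∀ z : Cn n, ‖z‖ ≤ 1 → 1 - ‖eval (fun i => z i) f‖ * ‖F‖ ≤
      ‖1 - eval (fun i => z i) f * conj F‖ := by
    intro z _
    have h1 := norm_sub_norm_le (1 : ℂ) (eval (fun i => z i) f * conj F)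
    rwa [norm_one, norm_mul, RCLike.norm_conj] at h1
  have hne : ∀ z : Cn n, ‖z‖ ≤ 1 → 1 - eval (fun i => z i) f * conj F ≠ 0 := by
    intro z hz
    have h1 := hden z hz
    have h2 := hle z hz
    have h3 : 0 < 1 - ‖eval (fun i => z i) f‖ * ‖F‖ := by
      nlinarith [norm_nonneg (eval (fun i => z i) f), norm_nonneg F]
    exact norm_pos_iff.1 (h3.trans_le h1)
  have hmax : ‖eval (fun i => w i) p / (1 - eval (fun i => w i) f * conj F)‖ ≤ 2 := by
    refine Complex.norm_le_of_forall_mem_frontier_norm_le (U := ball (0 : Cn n) 1)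
      (f := fun z : Cn n => eval (fun i => z i) p / (1 - eval (fun i => z i) f * conj F))
      isBounded_ball ?_ ?_ (subset_closure hw)
    · have hd : DifferentiableOn ℂ (fun z : Cn n => eval (fun i => z i) p *
          (1 - eval (fun i => z i) f * conj F)⁻¹) (closure (ball (0 : Cn n) 1)) := by
        intro z hz
        rw [closure_ball (0 : Cn n) one_ne_zero, mem_closedBall_zero_iff] at hz
        exact ((differentiable_eval p z).fun_mul
          (((differentiable_eval f z).mul_const (conj F)).const_sub 1 |>.fun_inv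
            (hne z hz))).differentiableWithinAt
      have he : (fun z : Cn n => eval (fun i => z i) p / (1 - eval (fun i => z i) f * conj F)) =
          fun z : Cn n => eval (fun i => z i) p * (1 - eval (fun i => z i) f * conj F)⁻¹ := by
        funext z
        exact div_eq_mul_inv _ _
      rw [he]
      exact hd.diffContOnCl
    · intro z hz
      rw [frontier_ball (0 : Cn n) one_ne_zero, mem_sphere_zero_iff_norm] at hz
      have hzS : (fun i => z i) ∈ Sph n := by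
        show ∑ i, ‖z i‖ ^ 2 = 1
        rw [← EuclideanSpace.norm_sq_eq, hz, one_pow]
      have h1 := hp _ hzS
      have h2 := hden z hz.le
      have h3 := hle z hz.le
      have h4 : 0 < ‖1 - eval (fun i => z i) f * conj F‖ := norm_pos_iff.2 (hne z hz.le)
      rw [norm_div, div_le_iff₀ h4]
      nlinarith [norm_nonneg (eval (fun i => z i) f), norm_nonneg F]
  have h1 : (1 : ℂ) - eval (fun i => w i) f * conj F = ((1 - ‖F‖ ^ 2 : ℝ) : ℂ) := by
    rw [← hF, Complex.mul_conj, Complex.normSq_eq_norm_sq]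
    push_cast
    ring
  have h2 : 0 < 1 - ‖F‖ ^ 2 := by nlinarith [norm_nonneg F]
  rw [h1, norm_div, Complex.norm_real, Real.norm_of_nonneg h2.le, div_le_iff₀ h2] at hmax
  exact hmax

/-- if `g_f` is extreme then no nonzero polynomial is dominated by `1 - |f|²` on the sphere -/
theorem noDom_gen {n : ℕ} (hn : 1 ≤ n) (f : MvPolynomial (Fin n) ℂ)
    (hlt : ∀ z ∈ ball (0 : Cn n) 1, ‖eval (fun i => z i) f‖ < 1)
    (hex : IsExtremePoint n (gH f)) : NoDom f := by
  intro p hp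
  obtain ⟨⟨hdiff, hre, h0⟩, hext⟩ := hex
  set i₀ : Fin n := ⟨0, hn⟩ with hi₀
  let k : Cn n → ℂ := fun z =>
    (1 / 4 : ℂ) * (z i₀ * eval (fun i => z i) p) / (1 - eval (fun i => z i) f) ^ 2
  have hk : ∀ z ∈ ball (0 : Cn n) 1, ‖k z‖ ≤ (gH f z).re / 2 := by
    intro z hz
    have h1 := dom_ball_gen hn f p hlt hp z hz
    obtain ⟨h2, h3⟩ := cayley_re (hlt z hz)
    have h4 : (gH f z).re = (1 - ‖eval (fun i => z i) f‖ ^ 2) /
        ‖1 - eval (fun i => z i) f‖ ^ 2 := h2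
    have h5 : ‖z i₀‖ ≤ 1 := by
      have h6 := coe_sum z hz
      have h7 : ‖z i₀‖ ^ 2 ≤ ∑ i, ‖(fun i => z i) i‖ ^ 2 :=
        Finset.single_le_sum (f := fun i => ‖(fun i => z i) i‖ ^ 2)
          (fun i _ => by positivity) (Finset.mem_univ i₀)
      nlinarith [norm_nonneg (z i₀)]
    rw [h4]
    show ‖(1 / 4 : ℂ) * (z i₀ * eval (fun i => z i) p) / (1 - eval (fun i => z i) f) ^ 2‖ ≤ _
    rw [norm_div, norm_mul, norm_mul, norm_pow]
    have h8 : ‖(1 / 4 : ℂ)‖ = 1 / 4 := by norm_num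
    rw [h8, div_div, div_le_div_iff₀ (by positivity) (by positivity)]
    have h9 : ‖z i₀‖ * ‖eval (fun i => z i) p‖ ≤ 2 * (1 - ‖eval (fun i => z i) f‖ ^ 2) := by
      calc ‖z i₀‖ * ‖eval (fun i => z i) p‖ ≤ 1 * ‖eval (fun i => z i) p‖ :=
            mul_le_mul_of_nonneg_right h5 (norm_nonneg _)
        _ ≤ _ := by rw [one_mul]; exact h1
    have h10 : 0 ≤ ‖1 - eval (fun i => z i) f‖ ^ 2 := by positivity
    calc 1 / 4 * (‖z i₀‖ * ‖eval (fun i => z i) p‖) * (‖1 - eval (fun i => z i) f‖ ^ 2 * 2)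
        = (‖z i₀‖ * ‖eval (fun i => z i) p‖) * (‖1 - eval (fun i => z i) f‖ ^ 2 / 2) := by ring
      _ ≤ (2 * (1 - ‖eval (fun i => z i) f‖ ^ 2)) * (‖1 - eval (fun i => z i) f‖ ^ 2 / 2) :=
        mul_le_mul_of_nonneg_right h9 (by positivity)
      _ = _ := by ring
  have hkd : DifferentiableOn ℂ k (ball 0 1) := by
    intro z hz
    have h1 := (cayley_re (hlt z hz)).2
    have h2 : (1 : ℂ) - eval (fun i => z i) f ≠ 0 := norm_pos_iff.1 h1
    have h3 := differentiable_eval f z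
    have h4 := differentiable_eval p z
    have h5 : DifferentiableAt ℂ (fun z : Cn n => z i₀) z :=
      (EuclideanSpace.proj (𝕜 := ℂ) i₀).differentiable z
    have h6 : DifferentiableAt ℂ (fun z : Cn n => (1 / 4 : ℂ) * (z i₀ * eval (fun i => z i) p) *
        ((1 - eval (fun i => z i) f) ^ 2)⁻¹) z :=
      ((h5.fun_mul h4).const_mul _).fun_mul (((h3.const_sub 1).fun_pow 2).fun_inv
        (pow_ne_zero 2 h2))
    have h7 : k = fun z : Cn n => (1 / 4 : ℂ) * (z i₀ * eval (fun i => z i) p) *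
        ((1 - eval (fun i => z i) f) ^ 2)⁻¹ := by
      funext z
      exact div_eq_mul_inv _ _
    rw [h7]
    exact h6.differentiableWithinAt
  have hk0 : k 0 = 0 := by
    show (1 / 4 : ℂ) * ((0 : Cn n) i₀ * eval (fun i => (0 : Cn n) i) p) /
      (1 - eval (fun i => (0 : Cn n) i) f) ^ 2 = 0
    simp
  have hg1 : (fun z => gH f z + k z) ∈ NB n := by
    refine ⟨hdiff.add hkd, ?_, by show gH f 0 + k 0 = 1; rw [h0, hk0, add_zero]⟩
    intro z hz
    have h1 := hk z hz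
    have h2 := hre z hz
    have h3 := (abs_le.1 (Complex.abs_re_le_norm (k z))).1
    rw [Complex.add_re]
    linarith
  have hg2 : (fun z => gH f z - k z) ∈ NB n := by
    refine ⟨hdiff.sub hkd, ?_, by show gH f 0 - k 0 = 1; rw [h0, hk0, sub_zero]⟩
    intro z hz
    have h1 := hk z hz
    have h2 := hre z hz
    have h3 := (abs_le.1 (Complex.abs_re_le_norm (k z))).2
    rw [Complex.sub_re]
    linarith
  have hkz := hext _ hg1 _ hg2 (1 / 2) (by norm_num) (by norm_num) (by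
    intro z _
    push_cast
    ring)
  have hXp : X i₀ * p = 0 := by
    refine eq_zero_of_ball _ fun z hz => ?_
    have hz' : (WithLp.toLp 2 z : Cn n) ∈ ball (0 : Cn n) 1 := (mem_ball_iff _).2 hz
    have h1 := hkz _ hz'
    have h2 : k (WithLp.toLp 2 z) = 0 := by
      have h3 : gH f (WithLp.toLp 2 z) + k (WithLp.toLp 2 z) =
        gH f (WithLp.toLp 2 z) - k (WithLp.toLp 2 z) := h1
      have h4 : (2 : ℂ) * k (WithLp.toLp 2 z) = 0 := by linear_combination h3
      rcases mul_eq_zero.1 h4 with h | h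
      · norm_num at h
      · exact h
    have h5 : (1 / 4 : ℂ) * (z i₀ * eval z p) / (1 - eval z f) ^ 2 = 0 := h2
    have h6 := (cayley_re (hlt _ hz')).2
    have h7 : (1 : ℂ) - eval z f ≠ 0 := norm_pos_iff.1 h6
    rw [div_eq_zero_iff] at h5
    rcases h5 with h5 | h5
    · rcases mul_eq_zero.1 h5 with h | h
      · norm_num at h
      · rw [map_mul, eval_X]
        exact h
    · exact absurd h5 (pow_ne_zero 2 h7)
  rcases mul_eq_zero.1 hXp with h | h
  · exact absurd h (X_ne_zero i₀)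
  · exact h

/-- a polynomial of order `√(1 - |f|²)` on the sphere vanishes when `NoDom f` -/
theorem eq_zero_of_sqrt {n : ℕ} (f p : MvPolynomial (Fin n) ℂ) (hno : NoDom f)
    (hf : ∀ z : Fin n → ℂ, ∑ i, ‖z i‖ ^ 2 ≤ 1 → ‖eval z f‖ ≤ 1)
    (h : ∃ C : ℝ, 0 ≤ C ∧ ∀ ζ ∈ Sph n, ‖eval ζ p‖ ≤ C * √(1 - ‖eval ζ f‖ ^ 2)) : p = 0 := by
  obtain ⟨C, hC0, hC⟩ := h
  have hpos : 0 < C ^ 2 + 1 := by positivity
  have h1 : MvPolynomial.C (((C ^ 2 + 1 : ℝ) : ℂ)⁻¹) * p ^ 2 = 0 := by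
    refine hno _ fun z hz => ?_
    rw [map_mul, eval_C, map_pow, norm_mul, norm_inv, norm_pow, Complex.norm_real,
      Real.norm_of_nonneg hpos.le]
    have h2 := hC z hz
    have h3 : 0 ≤ 1 - ‖eval z f‖ ^ 2 := by
      have := hf z (le_of_eq hz)
      nlinarith [norm_nonneg (eval z f)]
    have h4 : ‖eval z p‖ ^ 2 ≤ C ^ 2 * (1 - ‖eval z f‖ ^ 2) := by
      calc ‖eval z p‖ ^ 2 ≤ (C * √(1 - ‖eval z f‖ ^ 2)) ^ 2 :=
            pow_le_pow_left₀ (norm_nonneg _) h2 2
        _ = C ^ 2 * (1 - ‖eval z f‖ ^ 2) := by rw [mul_pow, Real.sq_sqrt h3]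
    rw [inv_mul_le_iff₀ hpos]
    nlinarith
  rcases mul_eq_zero.1 h1 with h2 | h2
  · exfalso
    rw [C_eq_zero, inv_eq_zero] at h2
    have : (C ^ 2 + 1 : ℝ) = 0 := by exact_mod_cast h2
    exact hpos.ne' this
  · exact pow_eq_zero_iff (two_ne_zero) |>.1 h2

end

end Pool.Agent.Lib.MP_6ff8d9_an.Hom.H20
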