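import Pool.Agent.Lib.MP_6ff8d9_an_h20.Chart
import Pool.Agent.Lib.MP_6ff8d9_an.FinalH

/-!
# The extreme points of `N(𝔹)` with polynomial Cayley transform
-/

open Metric Filter Topology MvPolynomial
open scoped ComplexConjugate

namespace Pool.Agent.Lib.MP_6ff8d9_an.Hom.H20

open M2 M5

noncomputable section

/-- for a homogeneous polynomial `NoDom` implies the two polynomial identities -/
lemma identity_of_noDom {n : ℕ} (hn : 2 ≤ n) {f : MvPolynomial (Fin n) ℂ} (hf0 : f ≠ 0) {m : ℕ}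
    (hm : 1 ≤ m) (hfm : f.IsHomogeneous m) (hno : NoDom f)
    (hf : ∀ z : Fin n → ℂ, ∑ i, ‖z i‖ ^ 2 ≤ 1 → ‖eval z f‖ ≤ 1) :
    2 ≤ m ∧ ∀ z i, cgrad f (cgrad f z) i = (m : ℂ) ^ m * eval z f ^ (m - 2) * z i := by
  have h0 : dual0 f = 0 := eq_zero_of_sqrt f _ hno hf (dual0_est f hf)
  have h1 : ∀ j, dual1 f j = 0 := fun j => eq_zero_of_sqrt f _ hno hf (dual1_est f hm hfm hf j)
  have htot : f.totalDegree = m := hfm.totalDegree hf0
  have hR : Rd f = (m : MvPolynomial (Fin n) ℂ) * f := by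
    have h3 := hfm.sum_X_mul_pderiv
    rw [nsmul_eq_mul] at h3
    exact h3
  -- `f f̄(∇f) = (m f)^m`
  have e0 : f * gsub f (bar f) = ((m : MvPolynomial (Fin n) ℂ) * f) ^ m := by
    have h2 : ∑ k ∈ Finset.range (f.totalDegree + 1),
        gsub f (homogeneousComponent k (bar f)) * Rd f ^ (f.totalDegree - k) =
        gsub f (bar f) := by
      rw [htot, Finset.sum_eq_single m]
      · rw [Nat.sub_self, pow_zero, mul_one, homogeneousComponent_of_mem (bar_homog hfm),
          if_pos rfl]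
      · intro k _ hk
        rw [homogeneousComponent_of_mem (bar_homog hfm), if_neg (fun h => hk h)]
        unfold gsub
        rw [map_zero, zero_mul]
      · intro h
        exact absurd (Finset.mem_range.2 (Nat.lt_succ_self m)) h
    unfold dual0 at h0
    rw [h2, htot, hR] at h0
    exact (sub_eq_zero.1 h0).symm
  have hm0 : (m : MvPolynomial (Fin n) ℂ) ≠ 0 := by
    have : (m : MvPolynomial (Fin n) ℂ) = C (m : ℂ) := by simp
    rw [this]
    exact (map_ne_zero_iff _ (C_injective _ _)).2 (by exact_mod_cast (by omega : m ≠ 0))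
  have e1 : gsub f (bar f) = (m : MvPolynomial (Fin n) ℂ) ^ m * f ^ (m - 1) := by
    apply mul_left_cancel₀ hf0
    rw [e0, mul_pow]
    have : f ^ m = f * f ^ (m - 1) := by
      rw [← pow_succ', Nat.sub_add_cancel hm]
    rw [this]
    ring
  have e2 : ∀ j, gsub f (pderiv j (bar f)) * f =
      (m : MvPolynomial (Fin n) ℂ) ^ m * f ^ (m - 1) * X j := by
    intro j
    have := h1 j
    unfold dual1 at this
    rw [e1] at this
    exact sub_eq_zero.1 this
  have hm2 : 2 ≤ m := by
    by_contra hcon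
    have hm1 : m = 1 := by omega
    subst hm1
    have hc : ∀ j, ∃ a : ℂ, gsub f (pderiv j (bar f)) = C a := by
      intro j
      have h3 : (pderiv j (bar f)).IsHomogeneous 0 := (bar_homog hfm).pderiv
      have h4 := totalDegree_eq_zero_iff_eq_C.1
        (Nat.le_zero.1 (h3.totalDegree_le))
      obtain ⟨a, ha⟩ : ∃ a, pderiv j (bar f) = C a := ⟨_, h4⟩
      refine ⟨a, ?_⟩
      rw [ha]
      unfold gsub
      simp
    obtain ⟨a, ha⟩ := hc ⟨0, by omega⟩
    obtain ⟨b, hb⟩ := hc ⟨1, by omega⟩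
    have h3 := e2 ⟨0, by omega⟩
    have h4 := e2 ⟨1, by omega⟩
    rw [ha] at h3
    rw [hb] at h4
    simp only [Nat.cast_one, one_pow, one_mul, Nat.sub_self, pow_zero] at h3 h4
    have h5 : C b * X (⟨0, by omega⟩ : Fin n) = (C a : MvPolynomial (Fin n) ℂ) * X ⟨1, by omega⟩ := by
      rw [← h3, ← h4]
      ring
    have hne : (⟨0, by omega⟩ : Fin n) ≠ ⟨1, by omega⟩ := by
      intro h
      exact absurd (Fin.mk.inj_iff.1 h) (by norm_num)
    have h6 := congrArg (eval (Pi.single (⟨0, by omega⟩ : Fin n) (1 : ℂ))) h5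
    simp only [map_mul, eval_C, eval_X, Pi.single_eq_same, mul_one] at h6
    rw [Pi.single_eq_of_ne hne.symm, mul_zero] at h6
    rw [h6, C_0, zero_mul] at h4
    exact X_ne_zero _ h4.symm
  refine ⟨hm2, fun z i => ?_⟩
  have e3 : gsub f (pderiv i (bar f)) =
      (m : MvPolynomial (Fin n) ℂ) ^ m * f ^ (m - 2) * X i := by
    apply mul_right_cancel₀ hf0
    rw [e2]
    have : f ^ (m - 1) = f ^ (m - 2) * f := by
      rw [← pow_succ]
      congr 1
      omega
    rw [this]
    ring
  have e4 := congrArg (eval z) e3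
  rw [eval_gsub, pderiv_bar, eval_bar] at e4
  simp only [map_mul, map_pow, map_natCast, eval_X] at e4
  exact e4

/-- the characterisation -/
theorem mainP {n : ℕ} (hn : 2 ≤ n) (f : MvPolynomial (Fin n) ℂ)
    (hf0 : eval (fun _ => (0 : ℂ)) f = 0)
    (hlt : ∀ z ∈ ball (0 : Cn n) 1, ‖eval (fun i => z i) f‖ < 1) :
    IsExtremePoint n (gH f) ↔ NotPower f ∧ ∃ m : ℕ, 2 ≤ m ∧ f.IsHomogeneous m ∧
      ∀ z i, cgrad f (cgrad f z) i = (m : ℂ) ^ m * eval z f ^ (m - 2) * z i := by
  have hn1 : 1 ≤ n := by omega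
  have hle := le_one_closed f hlt
  have hleS : ∀ z ∈ Sph n, ‖eval z f‖ ≤ 1 := fun z hz => hle z (le_of_eq hz)
  constructor
  · intro hex
    have hno := noDom_gen hn1 f hlt hex
    obtain ⟨m, hm⟩ := homog_of_dual0 f (eq_zero_of_sqrt f _ hno hle (dual0_est f hle))
    by_cases hf : f = 0
    · exfalso
      have h1 := ((mainH hn1 (fun _ => 1) (fun _ => one_pos) (d := 1) le_rfl f
        (by rw [hf]; exact isHomogeneous_zero _ _ _) hleS).2.1 hex).1
      exact h1 ⟨2, le_rfl, 0, by rw [hf]; simp⟩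
    have hm1 : 1 ≤ m := by
      by_contra hcon
      have hm0 : m = 0 := by omega
      subst hm0
      have h1 := totalDegree_eq_zero_iff_eq_C.1 (Nat.le_zero.1 hm.totalDegree_le)
      rw [h1, eval_C] at hf0
      rw [hf0, C_0] at h1
      exact hf h1
    obtain ⟨h2, h3⟩ := identity_of_noDom hn hf hm1 hm hno hle
    have h4 := (mainH hn1 (fun _ => 1) (fun _ => one_pos) hm1 f hm hleS).2.1 hex
    exact ⟨h4.1, m, h2, hm, h3⟩
  · rintro ⟨hnp, m, hm, hfm, hG⟩
    have hf : f ≠ 0 := by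
      rintro rfl
      exact hnp ⟨2, le_rfl, 0, by simp⟩
    exact (mainH hn1 (fun _ => 1) (fun _ => one_pos) (d := m) (by omega) f hfm hleS).2.2
      ⟨hnp, noDom_of_involution hn1 hf hm hfm hG⟩

/-- the characterisation for arbitrary polynomials -/
theorem mainQ {n : ℕ} (hn : 2 ≤ n) (f : MvPolynomial (Fin n) ℂ) :
    IsExtremePoint n (gH f) ↔ NotPower f ∧ ∃ m : ℕ, 2 ≤ m ∧ f.IsHomogeneous m ∧
      ∀ z i, cgrad f (cgrad f z) i = (m : ℂ) ^ m * eval z f ^ (m - 2) * z i := by
  constructor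
  · intro hex
    have hNB := hex.1
    have hne1 : ∀ z ∈ ball (0 : Cn n) 1, 1 - eval (fun i => z i) f ≠ 0 := by
      intro z hz h0
      have h1 := hNB.2.1 z hz
      unfold gH at h1
      rw [h0, div_zero, Complex.zero_re] at h1
      exact lt_irrefl _ h1
    have hlt : ∀ z ∈ ball (0 : Cn n) 1, ‖eval (fun i => z i) f‖ < 1 := by
      intro z hz
      have h1 := hNB.2.1 z hz
      have h2 : 0 < ‖1 - eval (fun i => z i) f‖ := norm_pos_iff.2 (hne1 z hz)
      unfold gH at h1
      rw [Complex.div_re, ← add_div] at h1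
      have h3 : 0 < Complex.normSq (1 - eval (fun i => z i) f) := Complex.normSq_pos.2 (hne1 z hz)
      have h4 := (div_pos_iff_of_pos_right h3).1 h1
      have h5 : ‖eval (fun i => z i) f‖ ^ 2 < 1 := by
        rw [← Complex.normSq_eq_norm_sq, Complex.normSq_apply]
        simp only [Complex.add_re, Complex.sub_re, Complex.one_re, Complex.add_im,
          Complex.sub_im, Complex.one_im] at h4
        nlinarith
      nlinarith [norm_nonneg (eval (fun i => z i) f)]
    have hf0 : eval (fun _ => (0 : ℂ)) f = 0 := by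
      have h1 := hNB.2.2
      have h2 := hne1 0 (mem_ball_self one_pos)
      unfold gH at h1
      rw [div_eq_one_iff_eq h2, zero_eval] at h1
      have h3 : (2 : ℂ) * eval (fun _ => (0 : ℂ)) f = 0 := by linear_combination h1
      exact (mul_eq_zero.1 h3).resolve_left two_ne_zero
    exact (mainP hn f hf0 hlt).1 hex
  · rintro ⟨hnp, m, hm, hfm, hG⟩
    have hf : f ≠ 0 := by
      rintro rfl
      exact hnp ⟨2, le_rfl, 0, by simp⟩
    have hb := bound_of_involution (by omega) hf hm hfm hG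
    have hlt : ∀ z ∈ ball (0 : Cn n) 1, ‖eval (fun i => z i) f‖ < 1 := fun z hz =>
      norm_lt_one (fun _ => 1) (fun _ => one_pos) (d := m) (by omega) f hfm hb _ (coe_sum z hz)
    have hf0 := eval_zero_eq (fun _ => 1) (d := m) (by omega) (fun _ => one_pos) hfm
    exact (mainP hn f hf0 hlt).2 ⟨hnp, m, hm, hfm, hG⟩

end

end Pool.Agent.Lib.MP_6ff8d9_an.Hom.H20
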